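import Mathlib
import Pool.Agent.Lib_helper89.MVDefs
import Pool.Agent.Lib_helper89.MVMain

/-!
Problem MP_f4f106_lc, Q1: every algorithm in the matrix-vector product model that solves a random
Gaussian linear system to accuracy `n ^ (-C)`, where `C > 1/2`, makes a linear number of queries.
-/

open MeasureTheory ProbabilityTheory Matrix Filter Topology
open scoped ENNReal

namespace Pool.Agent.Results.MP_f4f106_lc.LinearLowerBound

open Pool.Agent.Lib_helper89.MatVec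

/-- The elementary limit behind the theorem. -/
lemma eventually_bound (C : ℝ) (hC : 1 / 2 < C) (c : ℝ) (hc0 : 0 ≤ c) (hc : c < 2 / 7) (K : ℝ)
    (δ : ℝ) (hδ : δ + c / (1 - 2 * c) < 2 / 3) :
    ∀ᶠ n : ℕ in atTop, 0 < (1 - 2 * c) * (n : ℝ) - 1 ∧
      K ^ 2 * (n : ℝ) * ((n : ℝ) ^ (-C)) ^ 2 * K < 1 ∧
      δ + (c * n + 1) / ((1 - 2 * c) * n - 1) / (1 - K ^ 2 * n * ((n : ℝ) ^ (-C)) ^ 2 * K) < 2 / 3 := by
  have hc2 : 0 < 1 - 2 * c := by linarith
  have hnat : Tendsto (fun n : ℕ => (n : ℝ)) atTop atTop := tendsto_natCast_atTop_atTop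
  have h1 : Tendsto (fun n : ℕ => (1 - 2 * c) * (n : ℝ) - 1) atTop atTop :=
    tendsto_atTop_add_const_right _ _ (hnat.const_mul_atTop hc2)
  have h2 : Tendsto (fun n : ℕ => K ^ 2 * (n : ℝ) * ((n : ℝ) ^ (-C)) ^ 2 * K) atTop (𝓝 0) := by
    have h3 : Tendsto (fun n : ℕ => (K ^ 3) * (n : ℝ) ^ (-(2 * C - 1))) atTop (𝓝 (K ^ 3 * 0)) :=
      ((tendsto_rpow_neg_atTop (by linarith)).comp hnat).const_mul _
    rw [mul_zero] at h3
    refine h3.congr' ?_
    filter_upwards [eventually_gt_atTop 0] with n hn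
    have hn' : (0 : ℝ) < n := by exact_mod_cast hn
    have h4 : (n : ℝ) ^ (-(2 * C - 1)) = (n : ℝ) * ((n : ℝ) ^ (-C)) ^ 2 := by
      rw [← Real.rpow_natCast, ← Real.rpow_mul hn'.le]
      nth_rewrite 2 [← Real.rpow_one (n : ℝ)]
      rw [← Real.rpow_add hn']
      congr 1
      push_cast; ring
    rw [h4]; ring
  have h5 : Tendsto (fun n : ℕ => (c * n + 1) / ((1 - 2 * c) * (n : ℝ) - 1)) atTop
      (𝓝 (c / (1 - 2 * c))) := by
    have h6 : Tendsto (fun n : ℕ => (c + 1 / (n : ℝ)) / ((1 - 2 * c) - 1 / (n : ℝ))) atTop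
        (𝓝 ((c + 0) / ((1 - 2 * c) - 0))) := by
      have h7 : Tendsto (fun n : ℕ => 1 / (n : ℝ)) atTop (𝓝 0) := tendsto_one_div_atTop_nhds_zero_nat
      exact (tendsto_const_nhds.add h7).div (tendsto_const_nhds.sub h7) (by linarith)
    rw [add_zero, sub_zero] at h6
    refine h6.congr' ?_
    filter_upwards [eventually_gt_atTop 0] with n hn
    have hn' : (n : ℝ) ≠ 0 := by
      have : 0 < (n : ℝ) := by exact_mod_cast hn
      exact this.ne'
    rw [← mul_div_mul_right _ _ hn']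
    congr 1 <;> field_simp
  have h8 : Tendsto (fun n : ℕ => δ + (c * n + 1) / ((1 - 2 * c) * (n : ℝ) - 1) /
      (1 - K ^ 2 * n * ((n : ℝ) ^ (-C)) ^ 2 * K)) atTop
      (𝓝 (δ + c / (1 - 2 * c) / (1 - 0))) :=
    tendsto_const_nhds.add (h5.div (tendsto_const_nhds.sub h2) (by norm_num))
  rw [sub_zero, div_one] at h8
  filter_upwards [h1.eventually_gt_atTop 0, h2.eventually_lt_const one_pos,
    h8.eventually_lt_const hδ] with n a1 a2 a3
  exact ⟨a1, a2, a3⟩

universe u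

/-- For every `C > 1/2` and `c < 2/7`, for all large `n`, an algorithm that solves `A x = b` to
accuracy `n ^ (-C)` makes more than `c n` queries. -/
theorem result : ∀ C : ℝ, 1 / 2 < C → ∀ c : ℝ, c < 2 / 7 → ∃ N : ℕ, ∀ n ≥ N,
    ∀ (q : ℕ) (Ω : Type u) [MeasurableSpace Ω] (μ : Measure Ω) [IsProbabilityMeasure μ]
      (alg : Algorithm Ω n q), alg.Solves μ ((n : ℝ) ^ (-C)) → c * n < q := by
  intro C hC c hc
  set c' := max c 0 with hc'
  have hc'0 : 0 ≤ c' := le_max_right _ _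
  have hc'1 : c' < 2 / 7 := max_lt hc (by norm_num)
  have hρ : c' / (1 - 2 * c') < 2 / 3 := by
    rw [div_lt_div_iff₀ (by linarith) (by norm_num)]
    linarith
  set δ := (2 / 3 - c' / (1 - 2 * c')) / 2 with hδ
  have hδ0 : 0 < δ := by linarith
  set K := 17 / δ with hK
  have hK0 : 0 < K := by positivity
  have hev := eventually_bound C hC c' hc'0 hc'1 K δ (by linarith)
  obtain ⟨N, hN⟩ := eventually_atTop.1 hev
  refine ⟨max N 1, fun n hn q Ω _ μ _ alg hsol => ?_⟩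
  obtain ⟨a1, a2, a3⟩ := hN n (le_trans (le_max_left _ _) hn)
  have hn1 : 0 < n := lt_of_lt_of_le Nat.zero_lt_one (le_trans (le_max_right _ _) hn)
  have hnpos : (0 : ℝ) < n := by exact_mod_cast hn1
  by_contra hcon
  push Not at hcon
  have hq : (q : ℝ) ≤ c' * n := hcon.trans (mul_le_mul_of_nonneg_right (le_max_left _ _) hnpos.le)
  have hqn : 2 * q + 1 < n := by
    have : ((2 * q + 1 : ℕ) : ℝ) < (n : ℝ) := by push_cast; linarith
    exact_mod_cast this
  set b : Vec n := Pi.single ⟨0, hn1⟩ 1 with hb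
  have hbb : b ⬝ᵥ b = 1 := by rw [hb]; simp
  have h1 := prob_le alg μ b hbb hqn ((n : ℝ) ^ (-C)) K K (by positivity) hK0 hK0 a2
  have h2 := (hsol b).trans h1
  have h3 : 16 / K + 1 / K = δ := by
    rw [← add_div, hK]; field_simp; norm_num
  rw [h3] at h2
  have h4 : δ + ((q : ℝ) + 1) / (n - 2 * q - 1) / (1 - K ^ 2 * n * ((n : ℝ) ^ (-C)) ^ 2 * K) <
      2 / 3 := by
    refine lt_of_le_of_lt ?_ a3
    have h5 : 0 < 1 - K ^ 2 * n * ((n : ℝ) ^ (-C)) ^ 2 * K := by linarith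
    have h6 : ((q : ℝ) + 1) / (n - 2 * q - 1) ≤ (c' * n + 1) / ((1 - 2 * c') * n - 1) := by
      apply div_le_div₀ (by positivity) (by linarith) a1
      linarith
    gcongr
  have h7 : (2 / 3 : ℝ≥0∞) = ENNReal.ofReal (2 / 3) := by
    rw [ENNReal.ofReal_div_of_pos (by norm_num)]; norm_num
  rw [h7] at h2
  have h8 := (ENNReal.ofReal_le_ofReal_iff' ).1 h2
  rcases h8 with h8 | h8
  · linarith
  · norm_num at h8

end Pool.Agent.Results.MP_f4f106_lc.LinearLowerBound
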